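import Pool.Agent.Lib.MP_7682a8_an.KB.Iface

/-!
KTR: the covering theorem at an arbitrary point (affine and Koebe transform).
-/

set_option autoImplicit false

open Metric Set MeasureTheory Filter
open scoped Topology

namespace Pool.Agent.Lib.MP_7682a8_an.KB.H88

open Pool.Agent.Lib.MP_7682a8_an.KB

noncomputable section

/-- the disc automorphism used to change the base point -/
def Tm (c z : ℂ) : ℂ := (z + c) / (1 + starRingEnd ℂ c * z)

lemma Tm_den {c : ℂ} (hc : ‖c‖ < 1) {z : ℂ} (hz : z ∈ ball (0:ℂ) 1) :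
    1 + starRingEnd ℂ c * z ≠ 0 := by
  intro h0
  have hz' : ‖z‖ < 1 := by simpa using hz
  have h1 : starRingEnd ℂ c * z = -1 := by linear_combination h0
  have h2 : ‖starRingEnd ℂ c * z‖ = 1 := by rw [h1]; simp
  rw [norm_mul, Complex.norm_conj] at h2
  nlinarith [norm_nonneg c, norm_nonneg z]

lemma Tm_cc (c : ℂ) : ((1 - ‖c‖ ^ 2 : ℝ) : ℂ) = 1 - starRingEnd ℂ c * c := by
  rw [Complex.conj_mul']; push_cast; ring

lemma Tm_mem {c : ℂ} (hc : ‖c‖ < 1) {z : ℂ} (hz : z ∈ ball (0:ℂ) 1) : Tm c z ∈ ball (0:ℂ) 1 := by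
  have hz' : ‖z‖ < 1 := by simpa using hz
  have hc2 : 0 < 1 - ‖c‖ ^ 2 := by nlinarith [norm_nonneg c]
  rw [mem_ball_zero_iff, Tm, norm_div, div_lt_one (norm_pos_iff.mpr (Tm_den hc hz))]
  have key : ‖1 + starRingEnd ℂ c * z‖ ^ 2 - ‖z + c‖ ^ 2 = (1 - ‖z‖ ^ 2) * (1 - ‖c‖ ^ 2) := by
    rw [← Complex.normSq_eq_norm_sq, ← Complex.normSq_eq_norm_sq, ← Complex.normSq_eq_norm_sq,
      ← Complex.normSq_eq_norm_sq]
    simp only [Complex.normSq_apply, Complex.add_re, Complex.add_im, Complex.mul_re,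
      Complex.mul_im, Complex.one_re, Complex.one_im, Complex.conj_re, Complex.conj_im]
    ring
  have h2 : 0 < 1 - ‖z‖ ^ 2 := by nlinarith [norm_nonneg z]
  have h3 : ‖z + c‖ ^ 2 < ‖1 + starRingEnd ℂ c * z‖ ^ 2 := by
    have := mul_pos h2 hc2
    linarith
  exact lt_of_pow_lt_pow_left₀ 2 (norm_nonneg _) h3

lemma Tm_deriv {c : ℂ} (hc : ‖c‖ < 1) {z : ℂ} (hz : z ∈ ball (0:ℂ) 1) :
    HasDerivAt (Tm c) (((1 - ‖c‖ ^ 2 : ℝ) : ℂ) / (1 + starRingEnd ℂ c * z) ^ 2) z := by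
  have a1 : HasDerivAt (fun z : ℂ => z + c) 1 z := (hasDerivAt_id z).add_const c
  have a2 : HasDerivAt (fun z : ℂ => 1 + starRingEnd ℂ c * z) (starRingEnd ℂ c * 1) z :=
    ((hasDerivAt_id z).const_mul _).const_add 1
  have a3 := a1.div a2 (Tm_den hc hz)
  refine a3.congr_deriv ?_
  congr 1
  rw [Tm_cc]; ring

lemma Tm_zero (c : ℂ) : Tm c 0 = c := by simp [Tm]

lemma Tm_dist {c : ℂ} (hc : ‖c‖ < 1) {z : ℂ} (hz : z ∈ ball (0:ℂ) 1) :
    ‖Tm c z - c‖ = ‖z‖ * ‖1 - starRingEnd ℂ c * Tm c z‖ := by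
  have hd := Tm_den hc hz
  have h1 : Tm c z - c = z * (((1 - ‖c‖ ^ 2 : ℝ) : ℂ)) / (1 + starRingEnd ℂ c * z) := by
    rw [Tm, div_sub' hd]
    congr 1
    rw [Tm_cc]; ring
  have h2 : 1 - starRingEnd ℂ c * Tm c z =
      (((1 - ‖c‖ ^ 2 : ℝ) : ℂ)) / (1 + starRingEnd ℂ c * z) := by
    rw [Tm, mul_div_assoc', one_sub_div hd]
    congr 1
    rw [Tm_cc]; ring
  rw [h1, h2, norm_div, norm_mul, norm_div]
  ring

lemma lam_norm (a b x y : ℂ) : ‖starRingEnd ℂ a * x - starRingEnd ℂ b * y‖ ^ 2 -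
    ‖a * y - b * x‖ ^ 2 = (‖a‖ ^ 2 - ‖b‖ ^ 2) * (‖x‖ ^ 2 - ‖y‖ ^ 2) := by
  rw [← Complex.normSq_eq_norm_sq, ← Complex.normSq_eq_norm_sq, ← Complex.normSq_eq_norm_sq,
    ← Complex.normSq_eq_norm_sq, ← Complex.normSq_eq_norm_sq, ← Complex.normSq_eq_norm_sq]
  simp only [Complex.normSq_apply, Complex.sub_re, Complex.sub_im, Complex.mul_re,
    Complex.mul_im, Complex.conj_re, Complex.conj_im]
  ring

lemma Tm_inj {c : ℂ} (hc : ‖c‖ < 1) {z z' : ℂ} (hz : z ∈ ball (0:ℂ) 1) (hz' : z' ∈ ball (0:ℂ) 1)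
    (h : Tm c z = Tm c z') : z = z' := by
  rw [Tm, Tm, div_eq_div_iff (Tm_den hc hz) (Tm_den hc hz')] at h
  have h1 : (z - z') * ((1 - ‖c‖ ^ 2 : ℝ) : ℂ) = 0 := by
    rw [Tm_cc]; linear_combination h
  have hc2 : 0 < 1 - ‖c‖ ^ 2 := by nlinarith [norm_nonneg c]
  rcases mul_eq_zero.mp h1 with h2 | h2
  · exact sub_eq_zero.mp h2
  · exfalso
    have : (1 - ‖c‖ ^ 2 : ℝ) = 0 := by exact_mod_cast h2
    linarith

theorem ktr : KtrStmt := by
  intro d hd hcov h g hh hg hlt hinj c hc w hw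
  by_contra hcon
  push Not at hcon
  have hcn : ‖c‖ < 1 := by simpa using hc
  have hc2 : 0 < 1 - ‖c‖ ^ 2 := by nlinarith [norm_nonneg c]
  have h0mem : (0:ℂ) ∈ ball (0:ℂ) 1 := mem_ball_self one_pos
  obtain ⟨a, ha⟩ : ∃ a, a = deriv h c := ⟨_, rfl⟩
  obtain ⟨b, hb⟩ : ∃ b, b = deriv g c := ⟨_, rfl⟩
  obtain ⟨m, hm⟩ : ∃ m : ℝ, m = 1 - ‖c‖ ^ 2 := ⟨_, rfl⟩
  obtain ⟨J, hJ⟩ : ∃ J : ℝ, J = ‖a‖ ^ 2 - ‖b‖ ^ 2 := ⟨_, rfl⟩
  obtain ⟨fc, hfc⟩ : ∃ fc, fc = ff h g c := ⟨_, rfl⟩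
  rw [← ha, ← hb, ← hm, ← hJ, ← hfc] at hcon
  have hab : ‖b‖ < ‖a‖ := by rw [ha, hb]; exact hlt c hc
  have hJ0 : 0 < J := by
    rw [hJ]
    have : ‖b‖ ^ 2 < ‖a‖ ^ 2 := pow_lt_pow_left₀ hab (norm_nonneg _) (by norm_num)
    linarith
  have hm0 : 0 < m := by rw [hm]; exact hc2
  have hmJ : 0 < m * J := mul_pos hm0 hJ0
  have hmJC : ((m * J : ℝ) : ℂ) ≠ 0 := by exact_mod_cast hmJ.ne'
  have haa : ((J : ℝ) : ℂ) = starRingEnd ℂ a * a - starRingEnd ℂ b * b := by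
    rw [Complex.conj_mul', Complex.conj_mul', hJ]; push_cast; ring
  -- the real-linear map
  obtain ⟨L, hL⟩ : ∃ L : ℂ → ℂ, ∀ x, L x = starRingEnd ℂ a * x - starRingEnd ℂ b * starRingEnd ℂ x :=
    ⟨_, fun _ => rfl⟩
  have hLinj : ∀ x, L x = 0 → x = 0 := by
    intro x hx
    rw [hL, sub_eq_zero] at hx
    by_contra hne
    have h1 : ‖starRingEnd ℂ a * x‖ = ‖starRingEnd ℂ b * starRingEnd ℂ x‖ := by rw [hx]
    rw [norm_mul, norm_mul, Complex.norm_conj, Complex.norm_conj, Complex.norm_conj] at h1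
    have h2 : ‖a‖ = ‖b‖ := mul_right_cancel₀ (norm_ne_zero_iff.mpr hne) h1
    linarith
  have hLsub : ∀ x y, L x = L y → x = y := by
    intro x y hxy
    have h1 : L (x - y) = 0 := by
      have : L (x - y) = L x - L y := by
        simp only [hL, map_sub]; ring
      rw [this, hxy, sub_self]
    exact sub_eq_zero.mp (hLinj _ h1)
  -- the composed functions
  have hH' : ∀ z ∈ ball (0:ℂ) 1, HasDerivAt (fun z => h (Tm c z) - h c)
      (deriv h (Tm c z) * (((1 - ‖c‖ ^ 2 : ℝ) : ℂ) / (1 + starRingEnd ℂ c * z) ^ 2)) z := by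
    intro z hz
    have h1 : HasDerivAt h (deriv h (Tm c z)) (Tm c z) :=
      (hh.differentiableAt (isOpen_ball.mem_nhds (Tm_mem hcn hz))).hasDerivAt
    exact (HasDerivAt.comp z h1 (Tm_deriv hcn hz)).sub_const _
  have hK' : ∀ z ∈ ball (0:ℂ) 1, HasDerivAt (fun z => g (Tm c z) - g c)
      (deriv g (Tm c z) * (((1 - ‖c‖ ^ 2 : ℝ) : ℂ) / (1 + starRingEnd ℂ c * z) ^ 2)) z := by
    intro z hz
    have h1 : HasDerivAt g (deriv g (Tm c z)) (Tm c z) :=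
      (hg.differentiableAt (isOpen_ball.mem_nhds (Tm_mem hcn hz))).hasDerivAt
    exact (HasDerivAt.comp z h1 (Tm_deriv hcn hz)).sub_const _
  obtain ⟨H, hH⟩ : ∃ H : ℂ → ℂ, ∀ z, H z = (starRingEnd ℂ a * (h (Tm c z) - h c) -
    starRingEnd ℂ b * (g (Tm c z) - g c)) / ((m * J : ℝ) : ℂ) := ⟨_, fun _ => rfl⟩
  obtain ⟨K, hK⟩ : ∃ K : ℂ → ℂ, ∀ z, K z = (a * (g (Tm c z) - g c) -
    b * (h (Tm c z) - h c)) / ((m * J : ℝ) : ℂ) := ⟨_, fun _ => rfl⟩
  have hHd : ∀ z ∈ ball (0:ℂ) 1, HasDerivAt H ((starRingEnd ℂ a * deriv h (Tm c z) -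
      starRingEnd ℂ b * deriv g (Tm c z)) * (((1 - ‖c‖ ^ 2 : ℝ) : ℂ) /
        (1 + starRingEnd ℂ c * z) ^ 2) / ((m * J : ℝ) : ℂ)) z := by
    intro z hz
    have h1 : H = fun z => (starRingEnd ℂ a * (h (Tm c z) - h c) -
      starRingEnd ℂ b * (g (Tm c z) - g c)) / ((m * J : ℝ) : ℂ) := funext hH
    rw [h1]
    refine ((((hH' z hz).const_mul (starRingEnd ℂ a)).sub
      ((hK' z hz).const_mul (starRingEnd ℂ b))).div_const _).congr_deriv ?_
    ring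
  have hKd : ∀ z ∈ ball (0:ℂ) 1, HasDerivAt K ((a * deriv g (Tm c z) -
      b * deriv h (Tm c z)) * (((1 - ‖c‖ ^ 2 : ℝ) : ℂ) /
        (1 + starRingEnd ℂ c * z) ^ 2) / ((m * J : ℝ) : ℂ)) z := by
    intro z hz
    have h1 : K = fun z => (a * (g (Tm c z) - g c) -
      b * (h (Tm c z) - h c)) / ((m * J : ℝ) : ℂ) := funext hK
    rw [h1]
    refine ((((hK' z hz).const_mul a).sub ((hH' z hz).const_mul b)).div_const _).congr_deriv ?_
    ring
  -- the values of the transformed map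
  have hval : ∀ z, H z + starRingEnd ℂ (K z) =
      L (h (Tm c z) + starRingEnd ℂ (g (Tm c z)) - fc) / ((m * J : ℝ) : ℂ) := by
    intro z
    rw [hH, hK, hL, hfc, ff, map_div₀, Complex.conj_ofReal, ← add_div]
    congr 1
    simp only [map_sub, map_mul, map_add, Complex.conj_conj]
    ring
  have hLw : ‖L (w - fc) / ((m * J : ℝ) : ℂ)‖ < d := by
    rw [norm_div, Complex.norm_real, Real.norm_of_nonneg hmJ.le, div_lt_iff₀ hmJ, hL]
    exact hcon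
  have hsub := hcov H K
    (fun z hz => (hHd z hz).differentiableAt.differentiableWithinAt)
    (fun z hz => (hKd z hz).differentiableAt.differentiableWithinAt)
    (by rw [hH, Tm_zero]; simp)
    (by
      rw [(hHd 0 h0mem).deriv, Tm_zero, ← ha, ← hb, ← hm, ← haa, mul_zero, add_zero, one_pow,
        div_one]
      push_cast
      have h1 : (m:ℂ) ≠ 0 := by exact_mod_cast hm0.ne'
      have h2 : (J:ℂ) ≠ 0 := by exact_mod_cast hJ0.ne'
      field_simp)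
    (by rw [hK, Tm_zero]; simp)
    (by
      rw [(hKd 0 h0mem).deriv, Tm_zero, ← ha, ← hb]
      have : a * b - b * a = 0 := by ring
      rw [this]; simp)
    (by
      intro z hz
      rw [(hHd z hz).deriv, (hKd z hz).deriv, norm_div, norm_div, norm_mul, norm_mul]
      have h1 : 0 < ‖((1 - ‖c‖ ^ 2 : ℝ) : ℂ) / (1 + starRingEnd ℂ c * z) ^ 2‖ := by
        rw [norm_pos_iff]
        apply div_ne_zero
        · exact_mod_cast hc2.ne'
        · exact pow_ne_zero 2 (Tm_den hcn hz)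
      have h2 : 0 < ‖((m * J : ℝ) : ℂ)‖ := norm_pos_iff.mpr hmJC
      apply div_lt_div_of_pos_right _ h2
      apply mul_lt_mul_of_pos_right _ h1
      apply lt_of_pow_lt_pow_left₀ 2 (norm_nonneg _)
      have h3 := lam_norm a b (deriv h (Tm c z)) (deriv g (Tm c z))
      have h4 : ‖deriv g (Tm c z)‖ ^ 2 < ‖deriv h (Tm c z)‖ ^ 2 :=
        pow_lt_pow_left₀ (hlt _ (Tm_mem hcn hz)) (norm_nonneg _) (by norm_num)
      have h5 : 0 < (‖a‖ ^ 2 - ‖b‖ ^ 2) * (‖deriv h (Tm c z)‖ ^ 2 - ‖deriv g (Tm c z)‖ ^ 2) := by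
        rw [← hJ]
        exact mul_pos hJ0 (by linarith)
      linarith)
    (by
      intro z hz z' hz' he
      have he' : H z + starRingEnd ℂ (K z) = H z' + starRingEnd ℂ (K z') := he
      rw [hval, hval, div_left_inj' hmJC] at he'
      have h1 := hLsub _ _ he'
      have h2 : h (Tm c z) + starRingEnd ℂ (g (Tm c z)) =
          h (Tm c z') + starRingEnd ℂ (g (Tm c z')) := by linear_combination h1
      exact Tm_inj hcn hz hz' (hinj (Tm_mem hcn hz) (Tm_mem hcn hz') h2))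
  obtain ⟨z, hz, hzw⟩ := hsub (show L (w - fc) / ((m * J : ℝ) : ℂ) ∈ ball (0:ℂ) d by
    rw [mem_ball_zero_iff]; exact hLw)
  have hzw' : H z + starRingEnd ℂ (K z) = L (w - fc) / ((m * J : ℝ) : ℂ) := hzw
  rw [hval, div_left_inj' hmJC] at hzw'
  have h1 := hLsub _ _ hzw'
  exact hw (Tm c z) (Tm_mem hcn hz) (by linear_combination h1)

end

end Pool.Agent.Lib.MP_7682a8_an.KB.H88
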